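import Mathlib
import Pool.Agent.helper12.OB.SpecA

set_option autoImplicit false

namespace Pool.Agent.OB

open Pool.Agent.helper58.DC Pool.Agent.DI Pool.Agent.GR

/-- the elements `h` with `act h x = σ x` and `h ^ p = κ x` -/
def LDB_S {p : ℕ} {G X : Type} [Group G] (c : Cfg p G X) (x : X) : Set G :=
  {h | c.act h x = c.σ x ∧ h ^ p = c.κ x}

/-- the local sum -/
noncomputable def LDB_f {p : ℕ} {G X : Type} [Group G] (c : Cfg p G X) (θ : X → ℂ) (x : X) : ℂ :=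
  θ x * (W p (c.gen x) : ℂ) -
    ∑ᶠ h ∈ LDB_S c x, θ x * (W p (c.gen x ⊔ Subgroup.zpowers h) : ℂ)

theorem LDB_split {X G : Type} [Finite X] [Finite G] (P : X → Set G) (F : X → G → ℂ) :
    ∑ᶠ z ∈ {z : X × G | z.2 ∈ P z.1}, F z.1 z.2 = ∑ᶠ x, ∑ᶠ h ∈ P x, F x h := by
  classical
  have := Fintype.ofFinite X
  have := Fintype.ofFinite G
  simp only [finsum_mem_def]
  rw [finsum_eq_sum_of_fintype, Fintype.sum_prod_type, finsum_eq_sum_of_fintype]
  refine Finset.sum_congr rfl fun x _ => ?_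
  rw [finsum_eq_sum_of_fintype]
  refine Finset.sum_congr rfl fun h _ => ?_
  by_cases hh : h ∈ P x
  · rw [Set.indicator_of_mem hh, Set.indicator_of_mem (show (x, h) ∈ {z : X × G | z.2 ∈ P z.1} from hh)]
  · rw [Set.indicator_of_notMem hh,
      Set.indicator_of_notMem (show (x, h) ∉ {z : X × G | z.2 ∈ P z.1} from hh)]

theorem LDB_sum {p : ℕ} {G X : Type} [Group G] [Finite G] [Finite X] (c : Cfg p G X) (θ : X → ℂ) :
    (∑ᶠ x : X, θ x * (W p (c.gen x) : ℂ)) -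
      ∑ᶠ z ∈ {z : X × G | c.act z.2 z.1 = c.σ z.1 ∧ z.2 ^ p = c.κ z.1},
        θ z.1 * (W p (c.gen z.1 ⊔ Subgroup.zpowers z.2) : ℂ) = ∑ᶠ x, LDB_f c θ x := by
  have h1 := LDB_split (fun x : X => LDB_S c x)
    (fun x h => θ x * (W p (c.gen x ⊔ Subgroup.zpowers h) : ℂ))
  have h2 : (∑ᶠ z ∈ {z : X × G | c.act z.2 z.1 = c.σ z.1 ∧ z.2 ^ p = c.κ z.1},
        θ z.1 * (W p (c.gen z.1 ⊔ Subgroup.zpowers z.2) : ℂ)) =
      ∑ᶠ x, ∑ᶠ h ∈ LDB_S c x, θ x * (W p (c.gen x ⊔ Subgroup.zpowers h) : ℂ) := h1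
  rw [h2]
  unfold LDB_f
  rw [finsum_sub_distrib (Set.toFinite _) (Set.toFinite _)]

theorem LDB_inv (hWCJ : WCJ_stmt) {p : ℕ} [Fact p.Prime] {G X : Type} [Group G] [Finite G]
    (c : Cfg p G X) (θ : X → ℂ) (hθ : ∀ g x, θ (c.act g x) = θ x) (g : G) (x : X) :
    LDB_f c θ (c.act g x) = LDB_f c θ x := by
  have hW := (hWCJ G p).1
  unfold LDB_f
  rw [hθ, c.gen_act, hW]
  refine congrArg _ ?_
  rw [finsum_mem_def, finsum_mem_def]
  rw [← finsum_comp_equiv (MulAut.conj g).toEquiv]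
  refine finsum_congr fun h => ?_
  have e1 : (MulAut.conj g).toEquiv h = g * h * g⁻¹ := rfl
  rw [e1]
  have hm : g * h * g⁻¹ ∈ LDB_S c (c.act g x) ↔ h ∈ LDB_S c x := by
    unfold LDB_S
    simp only [Set.mem_ofPred_eq]
    rw [c.σ_act, c.κ_act, conj_pow]
    have e2 : c.act (g * h * g⁻¹) (c.act g x) = c.act g (c.act h x) := by
      rw [← Equiv.Perm.mul_apply, ← Equiv.Perm.mul_apply, ← map_mul, ← map_mul]
      congr 2
      group
    rw [e2]
    constructor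
    · rintro ⟨h1, h2⟩
      exact ⟨(c.act g).injective h1, mul_left_cancel (mul_right_cancel h2)⟩
    · rintro ⟨h1, h2⟩
      exact ⟨by rw [h1], by rw [h2]⟩
  by_cases hh : h ∈ LDB_S c x
  · rw [Set.indicator_of_mem hh, Set.indicator_of_mem (hm.2 hh)]
    have e3 : cj g (c.gen x) ⊔ Subgroup.zpowers (g * h * g⁻¹) =
        cj g (c.gen x ⊔ Subgroup.zpowers h) := by
      unfold cj
      rw [Subgroup.map_sup, MonoidHom.map_zpowers]
      rfl
    rw [e3, hW]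
  · rw [Set.indicator_of_notMem hh, Set.indicator_of_notMem fun h3 => hh (hm.1 h3)]

theorem LDB_sigma_inj {p : ℕ} (hp : p ≠ 0) {G X : Type} [Group G] (c : Cfg p G X) :
    Function.Injective c.σ := by
  intro x y hxy
  have h1 : c.κ x = c.κ y := by rw [← c.κ_σ x, ← c.κ_σ y, hxy]
  obtain ⟨q, rfl⟩ := Nat.exists_eq_succ_of_ne_zero hp
  have h2 : c.σ^[q.succ] x = c.σ^[q.succ] y := by
    rw [Function.iterate_succ_apply, Function.iterate_succ_apply, hxy]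
  rw [c.σ_pow, c.σ_pow, h1] at h2
  exact (c.act _).injective h2

theorem LDB_iter {p : ℕ} {G X : Type} [Group G] (c : Cfg p G X) (x : X) (h₀ : G)
    (h : c.act h₀ x = c.σ x) (j : ℕ) : c.σ^[j] x = c.act (h₀ ^ j) x := by
  induction j with
  | zero => simp
  | succ j ih =>
    rw [Function.iterate_succ_apply', ih, c.σ_act, ← h, pow_succ, map_mul]
    rfl

theorem LDB_norm {G : Type} [Group G] (H : Subgroup G) (g : G) (h : cj g H = H) : g ∈ nz H := by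
  have h1 : ∀ y : G, y ∈ H → g * y * g⁻¹ ∈ H := by
    intro y hy
    have h2 : g * y * g⁻¹ ∈ cj g H := ⟨y, hy, rfl⟩
    rwa [h] at h2
  refine Subgroup.mem_normalizer_iff.2 fun y => ⟨h1 y, fun hy => ?_⟩
  have h2 : g * y * g⁻¹ ∈ cj g H := by rw [h]; exact hy
  obtain ⟨z, hz, hz'⟩ := h2
  have h3 : z = y := by
    have h4 : g * z * g⁻¹ = g * y * g⁻¹ := hz'
    exact mul_left_cancel (mul_right_cancel h4)
  rw [← h3]
  exact hz

theorem LDB_cast {p : ℕ} {G X : Type} [Group G] [Finite G] (c : Cfg p G X) (θ : X → ℂ) (x : X) :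
    LDB_f c θ x = θ x * (((W p (c.gen x) -
      ∑ᶠ h ∈ LDB_S c x, W p (c.gen x ⊔ Subgroup.zpowers h) : ℤ)) : ℂ) := by
  unfold LDB_f
  have h1 : ((∑ᶠ h ∈ LDB_S c x, W p (c.gen x ⊔ Subgroup.zpowers h) : ℤ) : ℂ) =
      ∑ᶠ h ∈ LDB_S c x, (W p (c.gen x ⊔ Subgroup.zpowers h) : ℂ) :=
    (Int.castAddHom ℂ).map_finsum_mem _ (Set.toFinite _)
  have h2 := mul_finsum_mem (s := LDB_S c x)
    (f := fun h => (W p (c.gen x ⊔ Subgroup.zpowers h) : ℂ)) (θ x)
  rw [Int.cast_sub, h1, mul_sub, ← h2]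

theorem LDB_loc1 (hLLB : LLB_stmt) {p : ℕ} [Fact p.Prime] {G X : Type} [Group G] [Finite G]
    (c : Cfg p G X) (θ : X → ℂ) (x : X) (h₀ : G) (h : c.act h₀ x = c.σ x) :
    ∃ k : ℤ, LDB_f c θ x = (pp p (cz (c.gen x)) : ℂ) * (p * (θ x * k)) := by
  have h1 : h₀ ∈ nz (c.gen x) := by
    refine LDB_norm _ _ ?_
    rw [← c.gen_act, h, c.gen_σ]
  have h2 : h₀ * c.κ x = c.κ x * h₀ := by
    have h3 : h₀ * c.κ x * h₀⁻¹ = c.κ x := by rw [← c.κ_act, h, c.κ_σ]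
    exact mul_inv_eq_iff_eq_mul.1 h3
  have h3 : (c.κ x)⁻¹ * h₀ ^ p ∈ cz (c.gen x) := by
    rw [← c.fix, map_mul]
    change c.act (c.κ x)⁻¹ (c.act (h₀ ^ p) x) = x
    rw [← LDB_iter c x h₀ h p, c.σ_pow, map_inv]
    exact Equiv.symm_apply_apply _ _
  have h4 : LDB_S c x = {u : G | h₀⁻¹ * u ∈ cz (c.gen x) ∧ u ^ p = c.κ x} := by
    ext u
    unfold LDB_S
    simp only [Set.mem_ofPred_eq]
    rw [← c.fix, ← h, map_mul, map_inv]
    change _ ↔ (c.act h₀)⁻¹ (c.act u x) = x ∧ _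
    rw [Equiv.Perm.inv_eq_iff_eq]
  obtain ⟨k, hk⟩ := hLLB G p (c.gen x) h₀ (c.κ x) h1 (c.κ_mem x) h2 h3
  refine ⟨-k, ?_⟩
  rw [LDB_cast, h4]
  have h5 : (W p (c.gen x) - ∑ᶠ h ∈ {u : G | h₀⁻¹ * u ∈ cz (c.gen x) ∧ u ^ p = c.κ x},
      W p (c.gen x ⊔ Subgroup.zpowers h) : ℤ) = ((p * pp p (cz (c.gen x)) : ℕ) : ℤ) * (-k) := by
    linarith
  rw [h5]
  push_cast
  ring

theorem LDB_loc2 (hWCD : WCD_stmt) {p : ℕ} [Fact p.Prime] {G X : Type} [Group G] [Finite G]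
    (c : Cfg p G X) (θ : X → ℂ) (x : X) (h : ¬ ∃ h₀, c.act h₀ x = c.σ x) :
    ∃ k : ℤ, LDB_f c θ x = (pp p (cz (c.gen x)) : ℂ) * (θ x * k) := by
  obtain ⟨k, hk⟩ := hWCD G p (c.gen x)
  refine ⟨k, ?_⟩
  rw [LDB_cast]
  have h4 : LDB_S c x = ∅ := by
    ext u
    simp only [Set.mem_empty_iff_false, iff_false]
    rintro ⟨h5, -⟩
    exact h ⟨u, h5⟩
  rw [h4, finsum_mem_empty, sub_zero, hk]
  push_cast
  ring

theorem LDB_f_sigma {p : ℕ} {G X : Type} [Group G] [Finite G]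
    (c : Cfg p G X) (θ : X → ℂ) (hθ : ∀ x, θ (c.σ x) = θ x) (x : X)
    (h : ¬ ∃ h₀, c.act h₀ x = c.σ x) (h' : ¬ ∃ h₀, c.act h₀ (c.σ x) = c.σ (c.σ x)) :
    LDB_f c θ (c.σ x) = LDB_f c θ x := by
  have h4 : ∀ y, (¬ ∃ h₀, c.act h₀ y = c.σ y) → LDB_S c y = ∅ := by
    intro y hy
    ext u
    simp only [Set.mem_empty_iff_false, iff_false]
    rintro ⟨h5, -⟩
    exact hy ⟨u, h5⟩
  rw [LDB_cast, LDB_cast, h4 _ h, h4 _ h', c.gen_σ, hθ, finsum_mem_empty]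

/-- the multiples -/
def LDB_I {p : ℕ} {M : Ideal (integralClosure ℤ ℂ)} (h : Setup p M) (k : ℕ) : AddSubgroup ℂ where
  carrier := {w | ∃ v, IntAt M v ∧ (k : ℂ) * w = p * v}
  zero_mem' := ⟨0, IntAt.zero h, by simp⟩
  add_mem' := by
    rintro a b ⟨v, hv, e⟩ ⟨u, hu, e'⟩
    exact ⟨v + u, hv.add h hu, by rw [mul_add, e, e', mul_add]⟩
  neg_mem' := by
    rintro a ⟨v, hv, e⟩
    exact ⟨-v, hv.neg, by rw [mul_neg, e, mul_neg]⟩

theorem LDB_intAt_int {p : ℕ} {M : Ideal (integralClosure ℤ ℂ)} (h : Setup p M) (k : ℤ) :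
    IntAt M (k : ℂ) := IntAt.of_isIntegral h (by
      have := isIntegral_algebraMap (R := ℤ) (A := ℂ) (x := k)
      simpa using this)

theorem LDB_perm_zpow {Y : Type} (s t : Equiv.Perm Y) (h : Commute s t) (x : Y) (hx : s x = t x)
    (j : ℤ) : (s ^ j) x = (t ^ j) x := by
  have h1 : (t⁻¹ * s) x = x := by
    rw [Equiv.Perm.mul_apply, hx]
    exact Equiv.symm_apply_apply _ _
  have h2 : ((t⁻¹ * s) ^ j) x = x := Equiv.Perm.zpow_apply_eq_self_of_apply_eq_self h1 j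
  have h3 : (t⁻¹ * s) ^ j = (t ^ j)⁻¹ * s ^ j := by
    rw [(h.symm.inv_left).mul_zpow, inv_zpow]
  rw [h3, Equiv.Perm.mul_apply, Equiv.Perm.inv_eq_iff_eq] at h2
  exact h2

theorem LDB_P_act {p : ℕ} {G X : Type} [Group G] (c : Cfg p G X) (g : G) (x : X) :
    (∃ h₀, c.act h₀ (c.act g x) = c.σ (c.act g x)) ↔ ∃ h₀, c.act h₀ x = c.σ x := by
  constructor
  · rintro ⟨h, hh⟩
    refine ⟨g⁻¹ * h * g, ?_⟩
    rw [c.σ_act] at hh
    rw [map_mul, map_mul, map_inv]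
    change (c.act g)⁻¹ (c.act h (c.act g x)) = _
    rw [Equiv.Perm.inv_eq_iff_eq]
    exact hh
  · rintro ⟨h, hh⟩
    refine ⟨g * h * g⁻¹, ?_⟩
    rw [c.σ_act, ← hh]
    rw [← Equiv.Perm.mul_apply, ← Equiv.Perm.mul_apply, ← map_mul, ← map_mul]
    congr 2
    group

theorem LDB_P_sigma {p : ℕ} (hp : p ≠ 0) {G X : Type} [Group G] (c : Cfg p G X) (x : X) :
    (∃ h₀, c.act h₀ (c.σ x) = c.σ (c.σ x)) ↔ ∃ h₀, c.act h₀ x = c.σ x := by
  constructor
  · rintro ⟨h, hh⟩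
    refine ⟨h, LDB_sigma_inj hp c ?_⟩
    rw [c.σ_act]
    exact hh
  · rintro ⟨h, hh⟩
    refine ⟨h, ?_⟩
    rw [← c.σ_act, hh]

/-- the restricted action -/
def LDB_act {p : ℕ} {G X : Type} [Group G] (c : Cfg p G X) (Q : X → Prop)
    (hQ : ∀ g x, Q x → Q (c.act g x)) : G →* Equiv.Perm {x // Q x} :=
  MonoidHom.toHomPerm
    { toFun := fun g y => ⟨c.act g y.1, hQ g y.1 y.2⟩
      map_one' := by
        funext y
        refine Subtype.ext ?_
        change c.act 1 y.1 = y.1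
        rw [map_one]
        rfl
      map_mul' := fun g h => by
        funext y
        refine Subtype.ext ?_
        change c.act (g * h) y.1 = c.act g (c.act h y.1)
        rw [map_mul]
        rfl }

theorem LDB_act_apply {p : ℕ} {G X : Type} [Group G] (c : Cfg p G X) (Q : X → Prop)
    (hQ : ∀ g x, Q x → Q (c.act g x)) (g : G) (y : {x // Q x}) :
    ((LDB_act c Q hQ g y : {x // Q x}) : X) = c.act g y.1 := rfl

theorem LDB_pp_congr {p : ℕ} {A B : Type} (h : Nat.card A = Nat.card B) : pp p A = pp p B := by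
  unfold pp
  rw [h]

theorem LDB_pp_prod {p : ℕ} [Fact p.Prime] (A B : Type) [Finite A] [Finite B] [Nonempty A]
    [Nonempty B] : pp p (A × B) = pp p A * pp p B := by
  unfold pp
  rw [Nat.card_prod, padicValNat.mul Nat.card_pos.ne' Nat.card_pos.ne', pow_add]

theorem LDB_sum1 (hODV : ODV_stmt) (hWCJ : WCJ_stmt) (hLLB : LLB_stmt) {p : ℕ}
    {M : Ideal (integralClosure ℤ ℂ)} (h : Setup p M) {G X : Type} [Group G] [Finite G]
    [Finite X] (c : Cfg p G X) (θ : X → ℂ) (hi : ∀ x, IntAt M (θ x))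
    (hθ : ∀ g x, θ (c.act g x) = θ x) :
    ∃ v, IntAt M v ∧ ∑ᶠ y : {x : X // ∃ h₀, c.act h₀ x = c.σ x}, LDB_f c θ y.1 =
      ((p * pp p G : ℕ) : ℂ) * v := by
  have : Fact p.Prime := ⟨h.pr⟩
  have hQ : ∀ g x, (∃ h₀, c.act h₀ x = c.σ x) →
      ∃ h₀, c.act h₀ (c.act g x) = c.σ (c.act g x) := fun g x hx => (LDB_P_act c g x).2 hx
  obtain ⟨w, ⟨v, hv, e⟩, hw⟩ := hODV p h.pr G {x : X // ∃ h₀, c.act h₀ x = c.σ x}
    (LDB_act c _ hQ) (LDB_I h 1) (fun y => LDB_f c θ y.1)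
    (fun g y => by
      rw [LDB_act_apply]
      exact LDB_inv hWCJ c θ hθ g y.1)
    (by
      rintro ⟨x, h₀, hh₀⟩
      obtain ⟨k, hk⟩ := LDB_loc1 hLLB c θ x h₀ hh₀
      refine ⟨p * (θ x * k), ⟨θ x * k, (hi x).mul h (LDB_intAt_int h k), by simp⟩, ?_⟩
      change LDB_f c θ x = _
      rw [hk]
      have e1 : pp p (cz (c.gen x)) = pp p {n : G // LDB_act c (fun x => ∃ h₀, c.act h₀ x = c.σ x)
          hQ n ⟨x, h₀, hh₀⟩ = ⟨x, h₀, hh₀⟩} := by
        refine LDB_pp_congr (Nat.card_congr (Equiv.subtypeEquivRight fun n => ?_))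
        rw [← c.fix]
        exact ⟨fun hn => Subtype.ext hn, fun hn => congrArg Subtype.val hn⟩
      rw [e1])
  refine ⟨v, hv, ?_⟩
  rw [hw]
  have e2 : w = p * v := by
    rw [← e]
    simp
  rw [e2]
  push_cast
  ring

/-- the stabiliser in the product with a cyclic group of covering transformations -/
theorem LDB_stab {p : ℕ} (hp : p.Prime) {G Y : Type} [Group G] [Finite G] [Finite Y]
    (a : G →* Equiv.Perm Y) (s : Equiv.Perm Y) (hs : ∀ g, Commute (a g) s)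
    (κ : Y → G) (hκ : ∀ y, (s ^ p) y = a (κ y) y) (hno : ∀ y g, a g y ≠ s y)
    (N : G × Subgroup.zpowers s →* Equiv.Perm Y)
    (hN : ∀ n y, N n y = a n.1 ((n.2 : Equiv.Perm Y) y)) (y : Y) :
    Nat.card {n : G × Subgroup.zpowers s // N n y = y} =
      Nat.card {g : G // a g y = y} * Nat.card (Subgroup.zpowers (s ^ p)) ∧
    Nat.card (Subgroup.zpowers s) = p * Nat.card (Subgroup.zpowers (s ^ p)) := by
  have hsp : ∀ j : ℤ, ((s ^ p) ^ j) y = a (κ y ^ j) y := by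
    intro j
    rw [map_zpow]
    exact LDB_perm_zpow _ _ ((hs _).symm.pow_left p) y (hκ y) j
  have key : ∀ (j : ℤ) (g : G), a g ((s ^ j) y) = y → (p : ℤ) ∣ j := by
    intro j g hg
    by_contra hj
    have hc : IsCoprime j (p : ℤ) := by
      rw [Int.isCoprime_iff_gcd_eq_one, Int.gcd_comm]
      exact (Nat.Prime.coprime_iff_not_dvd hp).2 fun h5 => hj (Int.natCast_dvd.2 h5)
    obtain ⟨u, v, huv⟩ := hc
    have h1 : (s ^ j) y = (a g⁻¹) y := by
      rw [map_inv, Equiv.Perm.eq_inv_iff_eq]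
      exact hg
    have h2 : ((s ^ j) ^ u) y = ((a g⁻¹) ^ u) y :=
      LDB_perm_zpow _ _ (((hs _).symm.zpow_left j)) y h1 u
    refine hno y (κ y ^ v * (g⁻¹) ^ u) ?_
    have h3 : s = (s ^ j) ^ u * (s ^ p) ^ v := by
      rw [← zpow_natCast s p, ← zpow_mul, ← zpow_mul, ← zpow_add]
      have h4 : j * u + (p : ℤ) * v = 1 := by linarith
      rw [h4, zpow_one]
    have h5 : s y = ((s ^ j) ^ u) (((s ^ p) ^ v) y) := by
      conv_lhs => rw [h3]
      rfl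
    rw [h5, hsp, map_mul, Equiv.Perm.mul_apply, map_zpow a g⁻¹ u, ← h2]
    have h6 : Commute (a (κ y ^ v)) ((s ^ j) ^ u) := ((hs _).zpow_right j).zpow_right u
    rw [← Equiv.Perm.mul_apply, h6.eq, Equiv.Perm.mul_apply]
  have hdvd : p ∣ orderOf s := by
    have h1 := key (orderOf s : ℤ) 1 (by
      rw [zpow_natCast, pow_orderOf_eq_one, map_one]
      rfl)
    exact_mod_cast h1
  constructor
  · rw [← Nat.card_prod]
    have hex : ∀ t : Subgroup.zpowers (s ^ p), ∃ j : ℤ, (s ^ p) ^ j = (t : Equiv.Perm Y) :=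
      fun t => Subgroup.mem_zpowers_iff.1 t.2
    choose j hj using hex
    have hle : Subgroup.zpowers (s ^ p) ≤ Subgroup.zpowers s :=
      Subgroup.zpowers_le_of_mem (Subgroup.pow_mem _ (Subgroup.mem_zpowers s) p)
    have hmem : ∀ n : {n : G × Subgroup.zpowers s // N n y = y},
        (n.1.2 : Equiv.Perm Y) ∈ Subgroup.zpowers (s ^ p) := by
      rintro ⟨⟨g, t, ht⟩, hn⟩
      rw [hN] at hn
      obtain ⟨i, rfl⟩ := Subgroup.mem_zpowers_iff.1 ht
      obtain ⟨k, rfl⟩ := key i g hn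
      refine Subgroup.mem_zpowers_iff.2 ⟨k, ?_⟩
      rw [← zpow_natCast s p, ← zpow_mul]
    refine Nat.card_congr
      { toFun := fun n => (⟨n.1.1 * κ y ^ (j ⟨_, hmem n⟩), ?_⟩, ⟨_, hmem n⟩)
        invFun := fun m => ⟨(m.1.1 * (κ y ^ (j m.2))⁻¹, ⟨m.2, hle m.2.2⟩), ?_⟩
        left_inv := ?_
        right_inv := ?_ }
    · have h1 := n.2
      rw [hN] at h1
      rw [map_mul, Equiv.Perm.mul_apply, ← hsp, hj]
      exact h1
    · rw [hN]
      change a (m.1.1 * (κ y ^ (j m.2))⁻¹) ((m.2 : Equiv.Perm Y) y) = y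
      rw [← hj m.2, hsp, ← Equiv.Perm.mul_apply, ← map_mul, inv_mul_cancel_right]
      exact m.1.2
    · rintro ⟨⟨g, t, ht⟩, hn⟩
      refine Subtype.ext (Prod.ext ?_ (Subtype.ext rfl))
      exact mul_inv_cancel_right _ _
    · rintro ⟨⟨g, hg⟩, ⟨t, ht⟩⟩
      refine Prod.ext (Subtype.ext ?_) (Subtype.ext rfl)
      exact inv_mul_cancel_right _ _
  · rw [Nat.card_zpowers, Nat.card_zpowers, orderOf_pow_of_dvd hp.ne_zero hdvd]
    exact (Nat.mul_div_cancel' hdvd).symm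

theorem LDB_sum2 (hODV : ODV_stmt) (hWCJ : WCJ_stmt) (hWCD : WCD_stmt) {p : ℕ}
    {M : Ideal (integralClosure ℤ ℂ)} (h : Setup p M) {G X : Type} [Group G] [Finite G]
    [Finite X] (c : Cfg p G X) (θ : X → ℂ) (hi : ∀ x, IntAt M (θ x))
    (hθ : ∀ g x, θ (c.act g x) = θ x) (hθ' : ∀ x, θ (c.σ x) = θ x) :
    ∃ v, IntAt M v ∧ ∑ᶠ y : {x : X // ¬ ∃ h₀, c.act h₀ x = c.σ x}, LDB_f c θ y.1 =
      ((p * pp p G : ℕ) : ℂ) * v := by
  have : Fact p.Prime := ⟨h.pr⟩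
  have hQ : ∀ g x, (¬ ∃ h₀, c.act h₀ x = c.σ x) →
      ¬ ∃ h₀, c.act h₀ (c.act g x) = c.σ (c.act g x) := fun g x hx h5 =>
    hx ((LDB_P_act c g x).1 h5)
  have hQs : ∀ x, (¬ ∃ h₀, c.act h₀ x = c.σ x) →
      ¬ ∃ h₀, c.act h₀ (c.σ x) = c.σ (c.σ x) := fun x hx h5 =>
    hx ((LDB_P_sigma h.pr.ne_zero c x).1 h5)
  let Y := {x : X // ¬ ∃ h₀, c.act h₀ x = c.σ x}
  let sf : Y → Y := fun y => ⟨c.σ y.1, hQs y.1 y.2⟩
  have hsf : Function.Injective sf := fun y z hyz =>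
    Subtype.ext (LDB_sigma_inj h.pr.ne_zero c (congrArg Subtype.val hyz))
  let s : Equiv.Perm Y := Equiv.ofBijective sf (Finite.injective_iff_bijective.1 hsf)
  have hs1 : ∀ y : Y, (s y).1 = c.σ y.1 := fun y => rfl
  let a : G →* Equiv.Perm Y := LDB_act c _ hQ
  have ha1 : ∀ (g : G) (y : Y), (a g y).1 = c.act g y.1 := fun g y => rfl
  have hsn : ∀ (n : ℕ) (y : Y), ((s ^ n) y).1 = c.σ^[n] y.1 := by
    intro n
    induction n with
    | zero => intro y; rfl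
    | succ n ih =>
      intro y
      rw [pow_succ, Equiv.Perm.mul_apply, ih, hs1, Function.iterate_succ_apply]
  have hs : ∀ g, Commute (a g) s := by
    intro g
    refine Equiv.ext fun y => Subtype.ext ?_
    rw [Equiv.Perm.mul_apply, Equiv.Perm.mul_apply, ha1, hs1, hs1, ha1, c.σ_act]
  have hκ : ∀ y : Y, (s ^ p) y = a (c.κ y.1) y := by
    intro y
    refine Subtype.ext ?_
    rw [hsn, ha1, c.σ_pow]
  have hno : ∀ (y : Y) (g : G), a g y ≠ s y := by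
    intro y g hg
    refine y.2 ⟨g, ?_⟩
    rw [← ha1, hg, hs1]
  let N : G × Subgroup.zpowers s →* Equiv.Perm Y :=
    MonoidHom.noncommCoprod a (Subgroup.zpowers s).subtype (by
      rintro g ⟨t, ht⟩
      obtain ⟨i, rfl⟩ := Subgroup.mem_zpowers_iff.1 ht
      exact (hs g).zpow_right i)
  have hN : ∀ n y, N n y = a n.1 ((n.2 : Equiv.Perm Y) y) := fun n y => rfl
  have hstab := LDB_stab h.pr a s hs (fun y => c.κ y.1) hκ hno N hN
  -- invariance under the covering transformation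
  have hfs : ∀ y : Y, LDB_f c θ (s y).1 = LDB_f c θ y.1 := by
    intro y
    rw [hs1]
    exact LDB_f_sigma c θ hθ' y.1 y.2 (hQs y.1 y.2)
  have hfn : ∀ (n : ℕ) (y : Y), LDB_f c θ ((s ^ n) y).1 = LDB_f c θ y.1 := by
    intro n
    induction n with
    | zero => intro y; rfl
    | succ n ih =>
      intro y
      rw [pow_succ, Equiv.Perm.mul_apply, ih, hfs]
  have hfz : ∀ (t : Subgroup.zpowers s) (y : Y),
      LDB_f c θ ((t : Equiv.Perm Y) y).1 = LDB_f c θ y.1 := by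
    rintro ⟨t, ht⟩
    obtain ⟨n, rfl⟩ := (mem_powers_iff_mem_zpowers.2 ht : t ∈ Submonoid.powers s)
    exact hfn n
  obtain ⟨w, ⟨v, hv, e⟩, hw⟩ := hODV p h.pr (G × Subgroup.zpowers s) Y N
    (LDB_I h (pp p (Subgroup.zpowers s))) (fun y => LDB_f c θ y.1)
    (fun n y => by
      rw [hN, ha1, LDB_inv hWCJ c θ hθ, hfz])
    (by
      intro y
      obtain ⟨k, hk⟩ := LDB_loc2 hWCD c θ y.1 y.2
      obtain ⟨hc1, hc2⟩ := hstab y
      have e1 : pp p (Subgroup.zpowers s) = p * pp p (Subgroup.zpowers (s ^ p)) := by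
        unfold pp
        rw [hc2, padicValNat.mul h.pr.ne_zero Nat.card_pos.ne', padicValNat.self h.pr.one_lt,
          pow_add, pow_one]
      have e2 : pp p {n : G × Subgroup.zpowers s // N n y = y} =
          pp p (cz (c.gen y.1)) * pp p (Subgroup.zpowers (s ^ p)) := by
        rw [← LDB_pp_prod]
        refine LDB_pp_congr ?_
        rw [hc1, Nat.card_prod]
        refine congrArg (· * _) (Nat.card_congr (Equiv.subtypeEquivRight fun n => ?_))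
        rw [← c.fix]
        exact ⟨fun hn => congrArg Subtype.val hn, fun hn => Subtype.ext hn⟩
      have e3 : (pp p (Subgroup.zpowers (s ^ p)) : ℂ) ≠ 0 := by
        have : pp p (Subgroup.zpowers (s ^ p)) ≠ 0 := pow_ne_zero _ h.pr.ne_zero
        exact_mod_cast this
      refine ⟨θ y.1 * k / (pp p (Subgroup.zpowers (s ^ p)) : ℂ),
        ⟨θ y.1 * k, (hi _).mul h (LDB_intAt_int h k), ?_⟩, ?_⟩
      · rw [e1]
        push_cast
        field_simp
      · rw [e2]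
        rw [hk]
        push_cast
        field_simp)
  refine ⟨v, hv, ?_⟩
  change ∑ᶠ y : Y, LDB_f c θ y.1 = _
  rw [hw, LDB_pp_prod]
  push_cast
  rw [mul_assoc, e]
  ring

theorem LDB (hODV : ODV_stmt) (hWCJ : WCJ_stmt) (hWCD : WCD_stmt) (hLLB : LLB_stmt) :
    LDB_stmt := by
  intro p M h G X _ _ _ c θ hi hθ hθ'
  obtain ⟨v, hv, e⟩ := LDB_sum1 hODV hWCJ hLLB h c θ hi hθ
  obtain ⟨u, hu, e'⟩ := LDB_sum2 hODV hWCJ hWCD h c θ hi hθ hθ'
  refine ⟨v + u, hv.add h hu, ?_⟩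
  rw [LDB_sum, mul_add, ← e, ← e']
  classical
  have := Fintype.ofFinite X
  rw [finsum_eq_sum_of_fintype, finsum_eq_sum_of_fintype, finsum_eq_sum_of_fintype]
  exact (Fintype.sum_subtype_add_sum_subtype _ _).symm

end Pool.Agent.OB
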