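import Pool.Agent.helper22.OB.SpecZ

set_option autoImplicit false

namespace Pool.Agent.OB

open Pool.Agent.helper58.DC Pool.Agent.DI Pool.Agent.GR

theorem ZT5_inv (G : Type) [Group G] [Finite G] (k : ℕ) (hk : k.Coprime (Nat.card G)) :
    ∃ s : ℕ, s.Coprime (Nat.card G) ∧ ∀ g : G, g ^ (k * s) = g := by
  rcases Nat.lt_or_ge 1 (Nat.card G) with h1 | h1
  · obtain ⟨s, _, hs⟩ := Nat.exists_mul_mod_eq_one_of_coprime hk h1
    refine ⟨s, ?_, ?_⟩
    · rw [Nat.coprime_iff_gcd_eq_one]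
      have h2 : Nat.gcd s (Nat.card G) ∣ k * s % Nat.card G :=
        (Nat.dvd_mod_iff (Nat.gcd_dvd_right s (Nat.card G))).2
          (Dvd.dvd.mul_left (Nat.gcd_dvd_left s (Nat.card G)) k)
      rw [hs] at h2
      exact Nat.dvd_one.1 h2
    · intro g
      rw [← pow_mod_natCard, hs, pow_one]
  · have h2 : Nat.card G = 1 := by
      have := Nat.card_pos (α := G)
      omega
    refine ⟨1, Nat.coprime_one_left _, ?_⟩
    intro g
    haveI : Subsingleton G := (Nat.card_eq_one_iff_unique.1 h2).1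
    exact Subsingleton.elim _ _

theorem ZT5 (hZT4 : ZT4_stmt) : ZT5_stmt := by
  intro G _ _ k hk H z F
  obtain ⟨s, hs, hks⟩ := ZT5_inv G k hk
  have e1 : ∀ g : G, (g ^ k) ^ s = g := fun g => by rw [← pow_mul]; exact hks g
  have e2 : ∀ g : G, (g ^ s) ^ k = g := fun g => by rw [← pow_mul, mul_comm]; exact hks g
  apply finsum_mem_eq_of_bijOn (fun ψ : G → ℂ => fun g => ψ (g ^ s))
  · refine ⟨?_, ?_, ?_⟩
    · intro ψ hψ
      exact hZT4 G s hs H ψ hψ
    · intro ψ _ ψ' _ h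
      funext g
      have h2 := congrFun h (g ^ k)
      have h3 : ψ ((g ^ k) ^ s) = ψ' ((g ^ k) ^ s) := h2
      rwa [e1] at h3
    · intro ψ hψ
      refine ⟨fun g => ψ (g ^ k), hZT4 G k hk H ψ hψ, ?_⟩
      funext g
      show ψ ((g ^ s) ^ k) = ψ g
      rw [e2]
  · intro ψ _
    have h1 : cc ψ (fun g => z (g ^ k)) = cc (fun g => ψ (g ^ s)) z := by
      unfold cc
      have h2 : (∑ᶠ x, z (x ^ k) * ψ x) = ∑ᶠ x, z x * ψ (x ^ s) := by
        apply finsum_eq_of_bijective (fun x : G => x ^ k)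
        · constructor
          · intro a b h
            have h3 : a ^ k = b ^ k := h
            rw [← e1 a, h3, e1]
          · intro y
            exact ⟨y ^ s, e2 y⟩
        · intro x
          show z (x ^ k) * ψ x = z (x ^ k) * ψ ((x ^ k) ^ s)
          rw [e1]
      rw [h2]
      show (∑ᶠ x, z x * ψ (x ^ s)) / ψ 1 = (∑ᶠ x, z x * ψ (x ^ s)) / ψ (1 ^ s)
      rw [one_pow]
    show F (ψ 1) (cc ψ fun g => z (g ^ k)) = F (ψ (1 ^ s)) (cc (fun g => ψ (g ^ s)) z)
    rw [h1, one_pow]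

end Pool.Agent.OB
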