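import Mathlib
import Pool.Agent.helper22.OB.SpecU
import Pool.Agent.helper63.OB.LAD

set_option autoImplicit false

namespace Pool.Agent.OB

open Pool.Agent.helper58.DC Pool.Agent.DI Pool.Agent.GR

theorem UP2_ind_zero {G : Type} [Group G] {e : ℕ} {g : G} (hg : ∀ y : G, y ^ e ≠ g) (x : G) :
    ind g (x ^ e) = 0 := by
  unfold ind
  rw [if_neg]
  intro h
  obtain ⟨c, hc⟩ := isConj_iff.1 (show IsConj g (x ^ e) from h)
  refine hg (c⁻¹ * x * c) ?_
  have h1 : (c⁻¹ * x * c) ^ e = c⁻¹ * x ^ e * c := by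
    have := conj_pow (i := e) (a := c⁻¹) (b := x)
    rwa [inv_inv] at this
  rw [h1, ← hc]
  group

theorem UP2_ind_clf {p : ℕ} {M : Ideal (integralClosure ℤ ℂ)} (h : Setup p M) {G : Type} [Group G]
    (g : G) : ClF M (ind g) := by
  refine ⟨fun x y => ?_, fun x => ?_⟩
  · unfold ind
    have h1 : y * x * y⁻¹ ∈ conjugatesOf g ↔ x ∈ conjugatesOf g := by
      have h2 : IsConj x (y * x * y⁻¹) := isConj_iff.2 ⟨y, rfl⟩
      exact ⟨fun h3 => IsConj.trans h3 h2.symm, fun h3 => IsConj.trans h3 h2⟩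
    by_cases hx : x ∈ conjugatesOf g
    · rw [if_pos hx, if_pos (h1.2 hx)]
    · rw [if_neg hx, if_neg fun h3 => hx (h1.1 h3)]
  · unfold ind
    split_ifs
    · exact IntAt.one h
    · exact IntAt.zero h

theorem UP2_sp_zero {p k n : ℕ} {G : Type} [Group G] {f g₂ : G → ℂ} (hf : ∀ x, f (x ^ k) = 0) :
    Sp p (pw k f) g₂ n = 0 := by
  unfold Sp
  rw [← finsum_zero (α := (Fin n → G) × G)]
  refine finsum_congr fun x => ?_
  have : pw k f x.2 = 0 := hf x.2
  rw [this]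
  ring

theorem UP2_dvd {p : ℕ} {M : Ideal (integralClosure ℤ ℂ)} (h : Setup p M) {a : ℤ}
    (ha : InM M (a : ℂ)) : (p : ℤ) ∣ a := by
  obtain ⟨n, rfl | rfl⟩ := Int.eq_nat_or_neg a
  · have h1 : InM M (n : ℂ) := by simpa using ha
    exact Int.natCast_dvd_natCast.2 ((InM.natCast h n).1 h1)
  · have h1 : InM M (n : ℂ) := by simpa using InM.neg ha
    exact (Int.natCast_dvd_natCast.2 ((InM.natCast h n).1 h1)).neg_right

theorem UP2 (hDBL : DBL_stmt) (hBR2 : BR2_stmt) (hBR3 : BR3_stmt) (hFT2 : FT2_stmt)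
    (hZT0 : ZT0_stmt) (hC3 : C3_stmt) (hTI : TI_stmt) : UP2_stmt := by
  intro p e hpe M h G _ _ hO χ hχ g hg hpow
  have hpr := h.pr
  obtain ⟨hz1, hz2, -⟩ := hZT0 p M h G χ
  have hz : ClF M (zeta M χ) := ⟨hz1, hz2⟩
  have hi : ClF M (ind g) := UP2_ind_clf h g
  have key : Cg p M G 0 (To p (ind g) (zeta M χ) 0) := by
    rcases hpe with ⟨rfl, rfl⟩ | ⟨rfl, rfl⟩
    · have h2 := hDBL 2 M h G 1 (pw 2 (ind g)) (pw 2 (zeta M χ)) (LAD_clf hi 2) (LAD_clf hz 2)
      have h3 := hBR2 M h G 0 (ind g) (zeta M χ) hi hz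
      have h4 := LAD_trans h h2 h3
      have h5 : Sp 2 (pw 2 (pw 2 (ind g))) (pw 2 (pw 2 (zeta M χ))) 1 = 0 := by
        rw [LAD_pw]
        exact UP2_sp_zero (UP2_ind_zero hpow)
      rw [h5] at h4
      exact h4
    · have h3 := hBR3 M h G 0 (ind g) (zeta M χ) hi hz
      rw [UP2_sp_zero (UP2_ind_zero hpow)] at h3
      exact h3
  have h6 := LAD_trans h key (hFT2 p M h G hO χ hχ g)
  obtain ⟨w, hw, hw'⟩ := h6
  -- the order of G
  obtain ⟨m, hm⟩ : (pp p G : ℕ) ∣ Nat.card G := pow_padicValNat_dvd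
  have hcard : Nat.card G ≠ 0 := Nat.card_pos.ne'
  have hpp : pp p G ≠ 0 := by
    intro h0
    rw [h0, zero_mul] at hm
    exact hcard hm
  have hpm : ¬ p ∣ m := by
    rintro ⟨k, rfl⟩
    have : Fact p.Prime := ⟨hpr⟩
    have h7 : p ^ (padicValNat p (Nat.card G) + 1) ∣ Nat.card G := by
      refine ⟨k, ?_⟩
      rw [pow_succ]
      conv_lhs => rw [hm]
      unfold pp
      ring
    exact pow_succ_padicValNat_not_dvd hcard h7
  have hppC : (pp p G : ℂ) ≠ 0 := by exact_mod_cast hpp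
  have h8 : ((m : ℂ) * (aB p M χ : ℂ)) * omega χ g = -w := by
    have h9 : (pp p G : ℂ) * (((m : ℂ) * (aB p M χ : ℂ)) * omega χ g) = (pp p G : ℂ) * (-w) := by
      rw [mul_neg, ← hw', hm]
      push_cast
      ring
    exact mul_left_cancel₀ hppC h9
  have h10 : InM M (((m : ℂ) * (aB p M χ : ℂ)) * omega χ g) := by
    rw [h8]
    exact InM.neg hw
  have hint : ∀ k : ℤ, IntAt M (k : ℂ) := fun k => IntAt.of_isIntegral h (by
      have := isIntegral_algebraMap (R := ℤ) (A := ℂ) (x := k)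
      simpa using this)
  have hom : IntAt M (omega χ g) :=
    IntAt.of_isIntegral h ((hC3 G).2.2.2 ⊤ χ ((hTI G χ).2 hχ) g)
  have h11 : InM M ((m : ℂ) * (aB p M χ : ℂ)) := by
    rcases InM.or h ((IntAt.natCast h m).mul h (hint _)) hom h10 with h12 | h12
    · exact h12
    · exact absurd h12 hg
  have h13 : InM M (aB p M χ : ℂ) := by
    rcases InM.or h (IntAt.natCast h m) (hint _) h11 with h12 | h12
    · exact absurd ((InM.natCast h m).1 h12) hpm
    · exact h12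
  exact UP2_dvd h h13

end Pool.Agent.OB
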