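import Mathlib
import Pool.Agent.helper22.OB.SpecU

set_option autoImplicit false

namespace Pool.Agent.OB

open Pool.Agent.helper58.DC Pool.Agent.DI Pool.Agent.GR

theorem FINU (hUP2 : UP2_stmt) (hPGU : PGU_stmt) (hPGA : PGA_stmt) : FINU_stmt := by
  intro p e hpe M h G _ _ hO χ hχ hex
  obtain ⟨g, hg1, hg2⟩ := hex
  have : Fact p.Prime := ⟨h.pr⟩
  have h1 : (p : ℤ) ∣ aB p M χ := hUP2 p e hpe M h G hO χ hχ g hg1 hg2
  refine ⟨h1, fun E A _ _ _ X => ⟨fun U hU => hPGU p M G E A X χ hχ h1 U hU, fun hA U => ?_⟩⟩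
  exact hPGA p M G E A X hA χ hχ h1 U

end Pool.Agent.OB
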