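import Mathlib
import Pool.Agent.helper22.OB.SpecU

set_option autoImplicit false

namespace Pool.Agent.OB

open Pool.Agent.helper58.DC Pool.Agent.DI Pool.Agent.GR

theorem PGU (hPGS : PGS_stmt) (hRE : RE_stmt) (hST : ST_stmt) : PGU_stmt := by
  intro p hp M G E A _ _ _ _ _ X χ hχ hdvd U hU
  have h1 : (fun d : ℤ => ∑ᶠ V : {V : Subgroup A // U ≤ V}, altSum X p M χ d V.1) =
      fun d : ℤ => altSum (resE X U) p M χ d ⊤ := by
    funext d
    exact (hRE G E A X p M χ hχ d U).symm
  rw [h1]
  by_cases h0 : ∀ d : ℤ, altSum (resE X U) p M χ d ⊤ = 0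
  · have h2 : ∑ᶠ d : ℤ, altSum (resE X U) p M χ d ⊤ = 0 := by
      simp only [h0]
      exact finsum_zero
    rw [h2]
    exact dvd_zero _
  · push Not at h0
    obtain ⟨d, hd⟩ := h0
    have hs := hST G (U.comap X.proj) U (resE X U) p M χ hχ d hd
    have : Finite A := Finite.of_surjective X.proj X.proj_surjective
    have h3 := hPGS p M G (U.comap X.proj) U (resE X U) hU χ hχ hs
    have h4 := dvd_add h3 hdvd
    rw [sub_add_cancel] at h4
    exact h4

end Pool.Agent.OB
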